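import Pool.Agent.Y136.RA.Free

set_option autoImplicit false

/-!
# MP_c44da7_al: right alternative algebras with zero nuclei

Every right alternative algebra over a commutative ring embeds in a right alternative algebra whose
right nucleus, left nucleus, alternative centre and commutative centre are all zero.
-/

namespace Pool.Agent.Results.MP_c44da7_al.ZeroNuclei

open Pool.Agent.H772R3.RightAlt Pool.Agent.Y136.RA FreeNonUnitalNonAssocAlgebra

universe u v

/-- A polynomial with coefficients in `k`: an element of the free nonassociative `k`-algebra on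
countably many generators. -/
abbrev PolyOver (k : Type v) [CommRing k] : Type v := FreeNonUnitalNonAssocAlgebra k ℕ

/-- The value of a polynomial with coefficients in `k` in a `k`-algebra. -/
noncomputable def valueOver {k : Type v} [CommRing k] {A : Type (max u v)}
    [NonUnitalNonAssocRing A] [Module k A] [IsScalarTower k A A] [SMulCommClass k A A]
    (f : PolyOver k) (a : ℕ → A) : A :=
  lift k a f

/-- The polynomial `f` is nontrivial in the variety `InVar s` of algebras over `k`: it is not an
identity of all these algebras. -/
def NontrivialOver (k : Type v) [CommRing k] (s : Prop) (f : PolyOver k) : Prop :=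
  ∃ (C : Type (max u v)) (_ : NonUnitalNonAssocRing C) (_ : Module k C)
    (_ : IsScalarTower k C C) (_ : SMulCommClass k C C), InVar s C ∧
    ∃ c : ℕ → C, valueOver.{u, v} f c ≠ 0

theorem main (k : Type v) [CommRing k] (s : Prop) (A : Type (max u v)) [NonUnitalNonAssocRing A]
    [Module k A] [IsScalarTower k A A] [SMulCommClass k A A] (hA : InVar s A) :
    ∃ (B : Type (max u v)) (_ : NonUnitalNonAssocRing B) (_ : Module k B)
      (_ : IsScalarTower k B B) (_ : SMulCommClass k B B) (j : A →ₙₐ[k] B),
      Function.Injective j ∧ InVar s B ∧
      rightNucleus B = {0} ∧ leftNucleus B = {0} ∧ altCenter B = {0} ∧ commCenter B = {0} ∧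
      ∀ f : PolyOver k, NontrivialOver.{u, v} k s f → ∃ b : ℕ → B,
        valueOver.{u, v} f b ∉ rightNucleus B ∪ leftNucleus B ∪ altCenter B ∪ commCenter B := by
  refine ⟨B.{u, v} k s A, inferInstance, inferInstance, inferInstance, inferInstance,
    emb.{u, v} k s A, emb_injective k s A hA, B_inVar k s A, B_rightNucleus, B_leftNucleus,
    B_altCenter, B_commCenter, ?_⟩
  rintro f ⟨C, _, _, _, _, hC, c, hc⟩
  refine ⟨fun n => mk k s A (of k (Sum.inr n)), fun hmem => hc ?_⟩
  rw [B_rightNucleus, B_leftNucleus, B_altCenter, B_commCenter, Set.union_self, Set.union_self,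
    Set.union_self, Set.mem_singleton_iff] at hmem
  let q : P.{u, v} k A := lift k (fun n => of k (Sum.inr n)) f
  let π : P.{u, v} k A →ₙₐ[k] B.{u, v} k s A :=
    { toFun := mk k s A
      map_smul' := fun r p => mk_smul k s A r p
      map_zero' := mk_zero k s A
      map_add' := mk_add k s A
      map_mul' := mk_mul k s A }
  have h1 : valueOver.{u, v} f (fun n => mk k s A (of k (Sum.inr n))) = mk k s A q := by
    have h2 : lift k (fun n => mk k s A (of k (Sum.inr n))) =
        π.comp (lift k (fun n => of k (Sum.inr n))) := by
      apply hom_ext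
      intro x
      simp only [NonUnitalAlgHom.comp_apply, lift_of_apply]
      rfl
    unfold valueOver
    rw [h2]
    rfl
  rw [h1, ← mk_zero, mk_eq_mk] at hmem
  have h3 := hmem C hC 0 c
  rw [map_zero] at h3
  have h4 : (ev.{u, v} k (0 : A →ₙₐ[k] C) c).comp (lift k (fun n => of k (Sum.inr n))) =
      lift k c := by
    apply hom_ext
    intro x
    simp only [NonUnitalAlgHom.comp_apply, lift_of_apply, ev_inr]
  unfold valueOver
  rw [← h4]
  exact h3

/-- (1) Let `k` be a commutative ring and let `A` be a right alternative `k`-algebra, or (`s` true)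
a right alternative `k`-algebra with the right Moufang identity. Then `A` embeds in an algebra `B`
of the same kind whose right nucleus, left nucleus, alternative centre and commutative centre are
all zero; moreover every polynomial with coefficients in `k` that is not an identity of all
algebras of this kind takes on `B` a value outside the union of the four subsets.

(2) In particular, no nontrivial polynomial takes values only in the union of the right associative
centre, the left associative centre, the alternative centre and the commutative centre of every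
right alternative ring. -/
theorem result :
    (∀ (k : Type v) [CommRing k] (s : Prop) (A : Type (max u v)) [NonUnitalNonAssocRing A]
      [Module k A] [IsScalarTower k A A] [SMulCommClass k A A], InVar s A →
      ∃ (B : Type (max u v)) (_ : NonUnitalNonAssocRing B) (_ : Module k B)
        (_ : IsScalarTower k B B) (_ : SMulCommClass k B B) (j : A →ₙₐ[k] B),
        Function.Injective j ∧ InVar s B ∧
        rightNucleus B = {0} ∧ leftNucleus B = {0} ∧ altCenter B = {0} ∧ commCenter B = {0} ∧
        ∀ f : PolyOver k, NontrivialOver.{u, v} k s f → ∃ b : ℕ → B,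
          valueOver.{u, v} f b ∉ rightNucleus B ∪ leftNucleus B ∪ altCenter B ∪ commCenter B) ∧
    ¬ ∃ f : Poly, Nontrivial.{u} f ∧ TakesValuesIn.{u}
      (fun A _ => rightNucleus A ∪ leftNucleus A ∪ altCenter A ∪ commCenter A) f := by
  refine ⟨fun k _ s A _ _ _ _ hA => main.{u, v} k s A hA, ?_⟩
  rintro ⟨f, ⟨A, _, hA, a, ha⟩, hf⟩
  have hvar : ∀ {C : Type u} [NonUnitalNonAssocRing C], IsRightAlternative C → InVar False C :=
    fun h => ⟨h, fun h' => h'.elim⟩
  obtain ⟨B, i1, i2, i3, i4, j, -, hB, -, -, -, -, h1⟩ :=
    main.{u, 0} ℤ False A (hvar hA)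
  obtain rfl : i2 = AddCommGroup.toIntModule B := Subsingleton.elim _ _
  obtain ⟨b, hb⟩ := h1 f ⟨A, inferInstance, inferInstance, inferInstance, inferInstance, hvar hA,
    a, ha⟩
  exact hb (hf B hB.1 b)

end Pool.Agent.Results.MP_c44da7_al.ZeroNuclei
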